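import Pool.Agent.K3h22.EX.Stm6

/-! ET project (helper22), brick FLAG: flags of directions in which all relations have at least two
dominant monomials. -/

set_option autoImplicit false

namespace Pool.Agent.K3h58.ET

open MvPolynomial Filter Topology Pool.Agent.K3h22.EX

section mono

variable {F : Type} [Field F] {r : ℕ}

/-- Laurent monomials -/
def tm (t : Fin r → F) (e : Fin r → ℤ) : F := ∏ i, t i ^ e i

theorem tm_ne (t : Fin r → F) (ht : ∀ i, t i ≠ 0) (e : Fin r → ℤ) : tm t e ≠ 0 :=
  Finset.prod_ne_zero_iff.2 fun i _ => zpow_ne_zero _ (ht i)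

theorem tm_add (t : Fin r → F) (ht : ∀ i, t i ≠ 0) (e e' : Fin r → ℤ) :
    tm t (e + e') = tm t e * tm t e' := by
  unfold tm
  rw [← Finset.prod_mul_distrib]
  exact Finset.prod_congr rfl fun i _ => zpow_add₀ (ht i) _ _

theorem tm_zero (t : Fin r → F) : tm t 0 = 1 := by
  unfold tm
  exact Finset.prod_eq_one fun i _ => zpow_zero _

theorem tm_neg (t : Fin r → F) (e : Fin r → ℤ) : tm t (-e) = (tm t e)⁻¹ := by
  unfold tm
  rw [← Finset.prod_inv_distrib]
  exact Finset.prod_congr rfl fun i _ => zpow_neg _ _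

theorem tm_sub (t : Fin r → F) (ht : ∀ i, t i ≠ 0) (e e' : Fin r → ℤ) :
    tm t (e - e') = tm t e / tm t e' := by
  rw [sub_eq_add_neg, tm_add t ht, tm_neg, div_eq_mul_inv]

theorem tm_zsmul (t : Fin r → F) (k : ℤ) (e : Fin r → ℤ) : tm t (k • e) = tm t e ^ k := by
  unfold tm
  rw [← Finset.prod_zpow]
  refine Finset.prod_congr rfl fun i _ => ?_
  rw [Pi.smul_apply, smul_eq_mul, mul_comm, zpow_mul]

theorem tm_sum {ι : Type} (s : Finset ι) (t : Fin r → F) (ht : ∀ i, t i ≠ 0)
    (e : ι → Fin r → ℤ) : tm t (∑ a ∈ s, e a) = ∏ a ∈ s, tm t (e a) := by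
  classical
  induction s using Finset.induction_on with
  | empty => simp [tm_zero]
  | insert a s ha ih => rw [Finset.sum_insert ha, Finset.prod_insert ha, tm_add t ht, ih]

end mono

section val

variable {F : Type} [Field F] {Γ : Type} [LinearOrderedCommGroupWithZero Γ] (v : Valuation F Γ)

/-- among the terms of a sum equal to zero two have the largest value -/
theorem two_max {ι : Type} (s : Finset ι) (f : ι → F) (hs : s.Nonempty)
    (hf : ∀ i ∈ s, f i ≠ 0) (h0 : ∑ i ∈ s, f i = 0) :
    ∃ a ∈ s, ∃ b ∈ s, a ≠ b ∧ v (f a) = v (f b) ∧ ∀ e ∈ s, v (f e) ≤ v (f a) := by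
  classical
  obtain ⟨a, ha, hmax⟩ := s.exists_max_image (fun i => v (f i)) hs
  by_cases h : ∃ b ∈ s, a ≠ b ∧ v (f a) = v (f b)
  · obtain ⟨b, hb, hab, hv⟩ := h
    exact ⟨a, ha, b, hb, hab, hv, hmax⟩
  · exfalso
    have h1 : v (∑ i ∈ s, f i) = v (f a) := by
      refine v.map_sum_eq_of_lt ha fun i hi => ?_
      rw [Finset.mem_sdiff, Finset.mem_singleton] at hi
      refine lt_of_le_of_ne (hmax i hi.1) fun he => h ⟨i, hi.1, fun h' => hi.2 h'.symm, he.symm⟩
    rw [h0, map_zero] at h1
    exact hf a ha ((map_eq_zero v).1 h1.symm)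

/-- a sum of terms of pairwise different values has the value of one of its terms -/
theorem one_max {ι : Type} (s : Finset ι) (f : ι → F) (hs : s.Nonempty)
    (hf : ∀ i ∈ s, ∀ j ∈ s, v (f i) = v (f j) → i = j) :
    ∃ a ∈ s, v (∑ i ∈ s, f i) = v (f a) := by
  classical
  obtain ⟨a, ha, hmax⟩ := s.exists_max_image (fun i => v (f i)) hs
  refine ⟨a, ha, v.map_sum_eq_of_lt ha fun i hi => ?_⟩
  rw [Finset.mem_sdiff, Finset.mem_singleton] at hi
  exact lt_of_le_of_ne (hmax i hi.1) fun he => hi.2 (hf i hi.1 a ha he)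

variable {K : Type} [Field K] [Algebra K F]

/-- the value of a nonzero polynomial in elements with independent values -/
theorem val_poly {r : ℕ} (s : Fin r → F) (hs : ∀ i, s i ≠ 0)
    (hK : ∀ x : K, x ≠ 0 → v (algebraMap K F x) = 1)
    (hi : ∀ e : Fin r → ℤ, v (tm s e) = 1 → e = 0) (x : F)
    (hx : x ∈ Algebra.adjoin K (Set.range s)) (hx0 : x ≠ 0) :
    ∃ e : Fin r → ℤ, v x = v (tm s e) := by
  rw [Algebra.adjoin_range_eq_range_aeval] at hx
  obtain ⟨P, rfl⟩ := hx
  have hsum : (aeval s) P = ∑ d ∈ P.support,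
      algebraMap K F (P.coeff d) * ∏ i, s i ^ d i := by
    rw [aeval_def, eval₂_eq']
  have hne : P.support.Nonempty := by
    rw [Finset.nonempty_iff_ne_empty]
    intro h
    apply hx0
    change (aeval s) P = 0
    rw [hsum, h, Finset.sum_empty]
  have hterm : ∀ d ∈ P.support, v (algebraMap K F (P.coeff d) * ∏ i, s i ^ d i) =
      v (tm s fun i => (d i : ℤ)) := by
    intro d hd
    rw [map_mul, hK _ (mem_support_iff.1 hd), one_mul]
    congr 1
    unfold tm
    exact Finset.prod_congr rfl fun i _ => (zpow_natCast _ _).symm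
  obtain ⟨a, ha, hv⟩ := one_max v P.support
    (fun d => algebraMap K F (P.coeff d) * ∏ i, s i ^ d i) hne (by
      intro d hd d' hd' h
      rw [hterm d hd, hterm d' hd'] at h
      have h1 : v (tm s ((fun i => (d i : ℤ)) - fun i => (d' i : ℤ))) = 1 := by
        rw [tm_sub s hs, map_div₀, h]
        exact div_self ((map_ne_zero v).2 (tm_ne s hs _))
      have h2 := hi _ h1
      ext i
      have h3 := congrFun h2 i
      simp only [Pi.sub_apply, Pi.zero_apply, sub_eq_zero, Nat.cast_inj] at h3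
      exact h3)
  refine ⟨fun i => (a i : ℤ), ?_⟩
  change v ((aeval s) P) = _
  rw [hsum, hv, hterm a ha]

/-- a power of the value of an algebraic element is the value of a monomial -/
theorem val_alg {r : ℕ} (s : Fin r → F) (hs : ∀ i, s i ≠ 0)
    (hK : ∀ x : K, x ≠ 0 → v (algebraMap K F x) = 1)
    (hi : ∀ e : Fin r → ℤ, v (tm s e) = 1 → e = 0) (x : F) (hx0 : x ≠ 0)
    (hx : IsAlgebraic (Algebra.adjoin K (Set.range s)) x) :
    ∃ N : ℕ, 0 < N ∧ ∃ e : Fin r → ℤ, v x ^ N = v (tm s e) := by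
  obtain ⟨G, hG, hGx⟩ := hx
  rw [Polynomial.aeval_eq_sum_range] at hGx
  have hG2 : ∑ k ∈ G.support, ((G.coeff k : Algebra.adjoin K (Set.range s)) : F) * x ^ k = 0 := by
    rw [← hGx]
    have : G.support ⊆ Finset.range (G.natDegree + 1) := fun k hk => by
      rw [Finset.mem_range, Nat.lt_succ_iff]
      exact Polynomial.le_natDegree_of_mem_supp k hk
    rw [Finset.sum_subset this]
    · exact Finset.sum_congr rfl fun k _ => by rw [Algebra.smul_def]; rfl
    · intro k _ hk
      rw [Polynomial.notMem_support_iff.1 hk]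
      simp
  have hc : ∀ k ∈ G.support, ((G.coeff k : Algebra.adjoin K (Set.range s)) : F) ≠ 0 := by
    intro k hk h
    exact Polynomial.mem_support_iff.1 hk (Subtype.ext h)
  obtain ⟨a, ha, b, hb, hab, hv, -⟩ := two_max v G.support
    (fun k => ((G.coeff k : Algebra.adjoin K (Set.range s)) : F) * x ^ k)
    (Polynomial.nonempty_support_iff.2 hG)
    (fun k hk => mul_ne_zero (hc k hk) (pow_ne_zero _ hx0)) hG2
  -- the values of the coefficients
  have key : ∀ a b : ℕ, a ∈ G.support → b ∈ G.support → a < b →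
      v (((G.coeff a : Algebra.adjoin K (Set.range s)) : F) * x ^ a) =
      v (((G.coeff b : Algebra.adjoin K (Set.range s)) : F) * x ^ b) →
      ∃ N : ℕ, 0 < N ∧ ∃ e : Fin r → ℤ, v x ^ N = v (tm s e) := by
    intro a b ha hb hab hv
    obtain ⟨e, he⟩ := val_poly v s hs hK hi _ (G.coeff a).2 (hc a ha)
    obtain ⟨e', he'⟩ := val_poly v s hs hK hi _ (G.coeff b).2 (hc b hb)
    refine ⟨b - a, Nat.sub_pos_of_lt hab, e - e', ?_⟩
    rw [map_mul, map_mul, he, he', map_pow, map_pow] at hv
    rw [tm_sub s hs, map_div₀]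
    have h1 : v x ≠ 0 := (map_ne_zero v).2 hx0
    have h2 : v (tm s e') ≠ 0 := (map_ne_zero v).2 (tm_ne s hs _)
    have h3 : v x ^ b = v x ^ a * v x ^ (b - a) := by
      rw [← pow_add, Nat.add_sub_cancel' hab.le]
    rw [h3] at hv
    rw [eq_div_iff h2]
    have h4 : v x ^ a ≠ 0 := pow_ne_zero _ h1
    apply mul_left_cancel₀ h4
    rw [mul_comm (v (tm s e)), mul_comm (v (tm s e'))] at hv
    rw [← mul_assoc]
    exact hv.symm
  rcases lt_or_gt_of_ne hab with h | h
  · exact key a b ha hb h hv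
  · exact key b a hb ha h hv.symm

end val

/-- the sum with lexicographically positive coefficients is nonnegative for small values -/
theorem eps_pos {r : ℕ} (z : Fin r → ℝ) (i₀ : Fin r) (h0 : ∀ j < i₀, z j = 0) (h1 : 0 < z i₀) :
    ∀ᶠ ε : ℝ in 𝓝[>] 0, 0 ≤ ∑ i : Fin r, ε ^ (i : ℕ) * z i := by
  let h : ℝ → ℝ := fun ε => ∑ i, (if i < i₀ then 0 else ε ^ ((i : ℕ) - (i₀ : ℕ)) * z i)
  have hcont : Continuous h := by
    refine continuous_finsetSum _ fun i _ => ?_
    by_cases hi : i < i₀
    · simp only [hi, if_true]; exact continuous_const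
    · simp only [hi, if_false]; fun_prop
  have hh0 : h 0 = z i₀ := by
    change ∑ i, (if i < i₀ then 0 else (0 : ℝ) ^ ((i : ℕ) - (i₀ : ℕ)) * z i) = _
    rw [Finset.sum_eq_single i₀]
    · simp
    · intro i _ hi
      by_cases hlt : i < i₀
      · simp [hlt]
      · have hgt : i₀ < i := lt_of_le_of_ne (not_lt.1 hlt) (Ne.symm hi)
        have : (i : ℕ) - (i₀ : ℕ) ≠ 0 := by
          have := Fin.lt_def.1 hgt
          omega
        simp [hlt, this]
    · intro hni
      exact absurd (Finset.mem_univ _) hni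
  have hev : ∀ᶠ ε : ℝ in 𝓝 0, 0 < h ε := by
    have : Tendsto h (𝓝 0) (𝓝 (h 0)) := hcont.tendsto 0
    rw [hh0] at this
    exact this.eventually (lt_mem_nhds h1)
  have hev2 : ∀ᶠ ε : ℝ in 𝓝[>] 0, 0 < h ε := hev.filter_mono nhdsWithin_le_nhds
  filter_upwards [hev2, self_mem_nhdsWithin] with ε he hε
  have hε' : (0 : ℝ) < ε := hε
  have heq : ∑ i : Fin r, ε ^ (i : ℕ) * z i = ε ^ (i₀ : ℕ) * h ε := by
    change _ = ε ^ (i₀ : ℕ) * ∑ i, (if i < i₀ then 0 else ε ^ ((i : ℕ) - (i₀ : ℕ)) * z i)
    rw [Finset.mul_sum]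
    refine Finset.sum_congr rfl fun i _ => ?_
    by_cases hlt : i < i₀
    · rw [h0 i hlt, if_pos hlt]; ring
    · rw [if_neg hlt, ← mul_assoc, ← pow_add]
      congr 2
      have := Fin.le_def.1 (not_lt.1 hlt)
      omega
  rw [heq]
  positivity

/-- **Flags of directions.** -/
theorem t_FLAG (hVAL : S_VAL) (hTRM : S_TRM) : S_FLAG := by
  classical
  intro A F _ _ _ _ n d c y hinj hy ⟨B₀, hB₀, hBi⟩ hmax hcd m κ _ p hp
  have : FaithfulSMul A F := (faithfulSMul_iff_algebraMap_injective A F).2 hinj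
  let _ : Algebra (FractionRing A) F := FractionRing.liftAlgebra A F
  have : IsScalarTower A (FractionRing A) F := FractionRing.isScalarTower_liftAlgebra A F
  have : Algebra.IsAlgebraic A (FractionRing A) :=
    IsLocalization.isAlgebraic (R := A) (S := FractionRing A) (nonZeroDivisors A)
  have hiff : ∀ B : Finset (Fin n), AlgebraicIndependent A (fun b : {i // i ∈ B} => y b) ↔
      AlgebraicIndependent (FractionRing A) (fun b : {i // i ∈ B} => y b) := fun B =>
    Algebra.IsAlgebraic.algebraicIndependent_iff A (FractionRing A)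
  obtain ⟨u, hui, hualg, hum⟩ := hTRM (FractionRing A) F n d c y hy
    ⟨B₀, hB₀, (hiff B₀).1 hBi⟩ (fun B hB h => hmax B hB ((hiff B).2 h)) hcd m
  obtain ⟨O, hO, hlex⟩ := hVAL (FractionRing A) F (d + 1) _ hui
  -- notation
  set t : Fin (d + 1) → F := fun i => ∏ j, y j ^ u i j with ht
  have ht' : ∀ i, t i = tm y (u i) := fun i => rfl
  have htne : ∀ i, t i ≠ 0 := fun i => tm_ne y hy _
  have hlex' : ∀ e : Fin (d + 1) → ℤ, (∃ i, (∀ j < i, e j = 0) ∧ 0 < e i) →
      O.valuation (tm t e) < 1 := hlex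
  -- constants
  have hK : ∀ x : FractionRing A, x ≠ 0 → O.valuation (algebraMap (FractionRing A) F x) = 1 := by
    intro x hx
    have h1 : O.valuation (algebraMap (FractionRing A) F x) ≤ 1 :=
      (O.valuation_le_one_iff _).2 (hO x)
    have h2 : O.valuation (algebraMap (FractionRing A) F x⁻¹) ≤ 1 :=
      (O.valuation_le_one_iff _).2 (hO x⁻¹)
    have hx' : algebraMap (FractionRing A) F x ≠ 0 :=
      (map_ne_zero (algebraMap (FractionRing A) F)).2 hx
    rw [map_inv₀, map_inv₀] at h2
    refine le_antisymm h1 ?_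
    have h3 : (0 : O.ValueGroup) < O.valuation (algebraMap (FractionRing A) F x) :=
      zero_lt_iff.2 ((map_ne_zero O.valuation).2 hx')
    exact (inv_le_one₀ h3).1 h2
  -- trichotomy
  have tri : ∀ e : Fin (d + 1) → ℤ, e = 0 ∨ (∃ i, (∀ j < i, e j = 0) ∧ 0 < e i) ∨
      ∃ i, (∀ j < i, e j = 0) ∧ e i < 0 := by
    intro e
    by_cases h : ∃ i, e i ≠ 0
    · obtain ⟨i, hi, hmin⟩ := WellFounded.has_min (wellFounded_lt (α := Fin (d + 1)))
        {i | e i ≠ 0} h
      have hj : ∀ j < i, e j = 0 := fun j hj => by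
        by_contra h'
        exact hmin j h' hj
      rcases lt_or_gt_of_ne (show e i ≠ 0 from hi) with h' | h'
      · exact Or.inr (Or.inr ⟨i, hj, h'⟩)
      · exact Or.inr (Or.inl ⟨i, hj, h'⟩)
    · left
      push Not at h
      exact funext h
  have hneg : ∀ e : Fin (d + 1) → ℤ, (∃ i, (∀ j < i, e j = 0) ∧ e i < 0) →
      1 < O.valuation (tm t e) := by
    rintro e ⟨i, hi, hei⟩
    have h1 := hlex' (-e) ⟨i, fun j hj => by simp [hi j hj], by simpa using hei⟩
    rw [tm_neg, map_inv₀] at h1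
    have h3 : (0 : O.ValueGroup) < O.valuation (tm t e) :=
      zero_lt_iff.2 ((map_ne_zero O.valuation).2 (tm_ne t htne _))
    exact (inv_lt_one₀ h3).1 h1
  have hind : ∀ e : Fin (d + 1) → ℤ, O.valuation (tm t e) = 1 → e = 0 := by
    intro e he
    rcases tri e with h | h | h
    · exact h
    · exact absurd he (hlex' e h).ne
    · exact absurd he (hneg e h).ne'
  have hle : ∀ e : Fin (d + 1) → ℤ, O.valuation (tm t e) ≤ 1 →
      e = 0 ∨ ∃ i, (∀ j < i, e j = 0) ∧ 0 < e i := by
    intro e he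
    rcases tri e with h | h | h
    · exact Or.inl h
    · exact Or.inr h
    · exact absurd he (not_le.2 (hneg e h))
  -- values of the coordinates
  have hval : ∀ j, ∃ N : ℕ, 0 < N ∧ ∃ e : Fin (d + 1) → ℤ,
      O.valuation (y j) ^ N = O.valuation (tm t e) := fun j =>
    val_alg O.valuation t htne hK hind (y j) (hy j) (hualg j)
  choose N hN e he using hval
  obtain ⟨D, hD, E, hE⟩ : ∃ D : ℕ, 0 < D ∧ ∃ E : Fin n → Fin (d + 1) → ℤ, ∀ j,
      O.valuation (y j) ^ D = O.valuation (tm t (E j)) := by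
    refine ⟨∏ j, N j, Finset.prod_pos fun j _ => hN j,
      fun j => ((∏ i ∈ Finset.univ.erase j, N i : ℕ) : ℤ) • e j, fun j => ?_⟩
    rw [tm_zsmul, map_zpow₀, ← he j, zpow_natCast, ← pow_mul,
      Finset.mul_prod_erase _ _ (Finset.mem_univ j)]
  -- values of the monomials
  have hmon : ∀ a : Fin n → ℤ, O.valuation (tm y a) ^ D = O.valuation (tm t (∑ j, a j • E j)) := by
    intro a
    rw [tm_sum Finset.univ t htne, map_prod]
    unfold tm
    rw [map_prod, ← Finset.prod_pow]
    refine Finset.prod_congr rfl fun j _ => ?_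
    have := hE j
    rw [← tm, tm_zsmul, map_zpow₀, map_zpow₀, ← hE j, ← zpow_natCast, ← zpow_natCast, ← zpow_mul,
      ← zpow_mul, mul_comm]
  have hmon1 : ∀ a : Fin n → ℤ, O.valuation (tm y a) = 1 → ∑ j, a j • E j = 0 := by
    intro a ha
    apply hind
    rw [← hmon a, ha, one_pow]
  have hmonle : ∀ a : Fin n → ℤ, O.valuation (tm y a) ≤ 1 →
      (∑ j, a j • E j) = 0 ∨ ∃ i, (∀ l < i, (∑ j, a j • E j) l = 0) ∧ 0 < (∑ j, a j • E j) i := by
    intro a ha
    apply hle
    rw [← hmon a]
    exact pow_le_one' ha D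
  have hDQ : (D : ℚ) ≠ 0 := by exact_mod_cast hD.ne'
  let w : Fin (d + 1) → Fin n → ℚ := fun i j => -(E j i : ℚ) / D
  -- the pairing with integer vectors
  have hw : ∀ (a : Fin n → ℤ) (i : Fin (d + 1)),
      ∑ j, (a j : ℚ) * w i j = -(((∑ j, a j • E j) i : ℤ) : ℚ) / D := by
    intro a i
    rw [Finset.sum_apply, Int.cast_sum, ← Finset.sum_neg_distrib, Finset.sum_div]
    refine Finset.sum_congr rfl fun j _ => ?_
    simp only [w, Pi.smul_apply, smul_eq_mul, Int.cast_mul]
    ring
  have huE : ∀ i, ∑ j, u i j • E j = (D : ℤ) • Pi.single i 1 := by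
    intro i
    have h1 : O.valuation (tm t ((∑ j, u i j • E j) - (D : ℤ) • Pi.single i 1)) = 1 := by
      rw [tm_sub t htne, map_div₀, ← hmon, tm_zsmul]
      have h2 : tm t (Pi.single i 1) = t i := by
        unfold tm
        rw [Finset.prod_eq_single i]
        · simp
        · intro j _ hj
          rw [Pi.single_eq_of_ne hj, zpow_zero]
        · intro h
          exact absurd (Finset.mem_univ _) h
      rw [h2, ← ht', zpow_natCast, map_pow]
      exact div_self (pow_ne_zero _ ((map_ne_zero O.valuation).2 (htne i)))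
    exact sub_eq_zero.1 (hind _ h1)
  refine ⟨w, ?_, ?_, ?_⟩
  · rw [Fintype.linearIndependent_iff]
    intro g hg i
    have h1 : ∑ j, (u i j : ℚ) * (∑ l, g l • w l) j = 0 := by
      rw [hg]; simp
    have h2 : ∑ j, (u i j : ℚ) * (∑ l, g l • w l) j = ∑ l, g l * ∑ j, (u i j : ℚ) * w l j := by
      simp only [Finset.sum_apply, Pi.smul_apply, smul_eq_mul, Finset.mul_sum]
      rw [Finset.sum_comm]
      exact Finset.sum_congr rfl fun l _ => Finset.sum_congr rfl fun j _ => by ring
    have h3 : ∀ l, ∑ j, (u i j : ℚ) * w l j = if l = i then -1 else 0 := by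
      intro l
      rw [hw, huE]
      by_cases hl : l = i
      · subst hl
        simp [hDQ]
      · simp [hl]
    rw [h2] at h1
    simp only [h3] at h1
    simpa using h1
  · intro i
    rw [hw]
    -- the monomial is algebraic over the last d elements
    have hs : ∀ e : Fin d → ℤ, tm (fun l : Fin d => t l.succ) e = tm t (Fin.cons 0 e) := by
      intro e
      unfold tm
      rw [Fin.prod_univ_succ]
      simp
    have hsind : ∀ e : Fin d → ℤ, O.valuation (tm (fun l : Fin d => t l.succ) e) = 1 → e = 0 := by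
      intro e he
      rw [hs] at he
      have h1 := hind _ he
      ext l
      have h2 := congrFun h1 l.succ
      simpa using h2
    obtain ⟨M, hM, e', he'⟩ := val_alg O.valuation (fun l : Fin d => t l.succ)
      (fun l => htne _) hK hsind (tm y (m i)) (tm_ne y hy _) (hum i)
    rw [hs] at he'
    have h1 : O.valuation (tm t ((M : ℤ) • (∑ j, m i j • E j) - (D : ℤ) • Fin.cons 0 e')) = 1 := by
      rw [tm_sub t htne, map_div₀, tm_zsmul, tm_zsmul, map_zpow₀, map_zpow₀, ← hmon, ← he',
        zpow_natCast, zpow_natCast, ← pow_mul, ← pow_mul, mul_comm]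
      exact div_self (pow_ne_zero _ ((map_ne_zero O.valuation).2 (tm_ne y hy _)))
    have h2 := congrFun (hind _ h1) 0
    have h3 : (∑ j, m i j • E j) 0 = 0 := by
      rw [Pi.sub_apply, Pi.smul_apply, Pi.smul_apply, Fin.cons_zero, smul_eq_mul, smul_eq_mul,
        mul_zero, sub_zero, Pi.zero_apply] at h2
      have hM' : (M : ℤ) ≠ 0 := by exact_mod_cast hM.ne'
      exact (mul_eq_zero.1 h2).resolve_left hM'
    rw [h3]
    simp
  · -- the dominant monomials
    have hpr : ∀ (e : Fin n →₀ ℕ) (ε : ℝ),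
        pr e (fun j => ∑ i : Fin (d + 1), ε ^ (i : ℕ) * (w i j : ℝ)) =
        -(∑ i : Fin (d + 1), ε ^ (i : ℕ) * (((∑ j, (e j : ℤ) • E j) i : ℤ) : ℝ)) / D := by
      intro e ε
      unfold pr
      have h1 : ∀ i, (∑ j, (e j : ℝ) * (w i j : ℝ)) =
          -(((∑ j, (e j : ℤ) • E j) i : ℤ) : ℝ) / D := by
        intro i
        have h2 := hw (fun j => (e j : ℤ)) i
        have h3 := congrArg (fun q : ℚ => (q : ℝ)) h2
        push_cast at h3
        exact h3
      calc ∑ j, (e j : ℝ) * ∑ i : Fin (d + 1), ε ^ (i : ℕ) * (w i j : ℝ)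
          = ∑ i : Fin (d + 1), ε ^ (i : ℕ) * ∑ j, (e j : ℝ) * (w i j : ℝ) := by
            simp only [Finset.mul_sum]
            rw [Finset.sum_comm]
            exact Finset.sum_congr rfl fun i _ => Finset.sum_congr rfl fun j _ => by ring
        _ = _ := by
            simp only [h1]
            rw [← Finset.sum_neg_distrib, Finset.sum_div]
            exact Finset.sum_congr rfl fun i _ => by ring
    have hk : ∀ k, ∀ᶠ ε : ℝ in 𝓝[>] 0,
        Twice (p k).support (fun j => ∑ i : Fin (d + 1), ε ^ (i : ℕ) * (w i j : ℝ)) := by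
      intro k
      have hsum : ∑ e ∈ (p k).support, algebraMap A F ((p k).coeff e) * ∏ i, y i ^ e i = 0 := by
        rw [← (hp k).2, aeval_def, eval₂_eq']
      have hcf : ∀ e ∈ (p k).support, algebraMap (FractionRing A) F
          (algebraMap A (FractionRing A) ((p k).coeff e)) = algebraMap A F ((p k).coeff e) :=
        fun e _ => (IsScalarTower.algebraMap_apply A (FractionRing A) F _).symm
      have hvc : ∀ e ∈ (p k).support, O.valuation (algebraMap A F ((p k).coeff e)) = 1 := by
        intro e he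
        rw [← hcf e he]
        apply hK
        intro h
        exact mem_support_iff.1 he ((IsFractionRing.injective A (FractionRing A))
          (h.trans (map_zero _).symm))
      have hterm : ∀ e ∈ (p k).support,
          O.valuation (algebraMap A F ((p k).coeff e) * ∏ i, y i ^ e i) =
          O.valuation (tm y fun i => (e i : ℤ)) := by
        intro e he
        rw [map_mul, hvc e he, one_mul]
        congr 1
        unfold tm
        exact Finset.prod_congr rfl fun i _ => (zpow_natCast _ _).symm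
      obtain ⟨a, ha, b, hb, hab, hv, hmx⟩ := two_max O.valuation (p k).support
        (fun e => algebraMap A F ((p k).coeff e) * ∏ i, y i ^ e i)
        (support_nonempty.2 (hp k).1) (fun e he => by
          refine mul_ne_zero ?_ (Finset.prod_ne_zero_iff.2 fun i _ => pow_ne_zero _ (hy i))
          intro h
          have := hvc e he
          rw [h, map_zero] at this
          exact zero_ne_one this) hsum
      rw [hterm a ha, hterm b hb] at hv
      have hZab : ∑ j, (a j : ℤ) • E j = ∑ j, (b j : ℤ) • E j := by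
        have h1 : O.valuation (tm y ((fun i => (a i : ℤ)) - fun i => (b i : ℤ))) = 1 := by
          rw [tm_sub y hy, map_div₀, hv]
          exact div_self ((map_ne_zero O.valuation).2 (tm_ne y hy _))
        have h2 := hmon1 _ h1
        simp only [Pi.sub_apply, sub_smul, Finset.sum_sub_distrib] at h2
        exact sub_eq_zero.1 h2
      have hZe : ∀ e ∈ (p k).support, ∀ᶠ ε : ℝ in 𝓝[>] 0,
          0 ≤ ∑ i : Fin (d + 1), ε ^ (i : ℕ) *
            ((((∑ j, (e j : ℤ) • E j) i - (∑ j, (a j : ℤ) • E j) i : ℤ)) : ℝ) := by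
        intro e he
        have h1 : O.valuation (tm y ((fun i => (e i : ℤ)) - fun i => (a i : ℤ))) ≤ 1 := by
          rw [tm_sub y hy, map_div₀]
          have h2 := hmx e he
          simp only [hterm e he, hterm a ha] at h2
          have h3 : (0 : O.ValueGroup) < O.valuation (tm y fun i => (a i : ℤ)) :=
            zero_lt_iff.2 ((map_ne_zero O.valuation).2 (tm_ne y hy _))
          exact (div_le_one₀ h3).2 h2
        have h2 : (∑ j, ((fun i => (e i : ℤ)) - fun i => (a i : ℤ)) j • E j) =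
            (∑ j, (e j : ℤ) • E j) - ∑ j, (a j : ℤ) • E j := by
          rw [← Finset.sum_sub_distrib]
          exact Finset.sum_congr rfl fun j _ => sub_smul _ _ _
        rcases hmonle _ h1 with h | ⟨i, hi, hi'⟩
        · rw [h2] at h
          refine Eventually.of_forall fun ε => ?_
          refine (Finset.sum_eq_zero fun i _ => ?_).ge
          have := congrFun h i
          rw [Pi.sub_apply, Pi.zero_apply] at this
          rw [this]
          simp
        · refine eps_pos _ i (fun j hj => ?_) ?_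
          · have := hi j hj
            rw [h2, Pi.sub_apply] at this
            exact_mod_cast this
          · rw [h2, Pi.sub_apply] at hi'
            exact_mod_cast hi'
      have hall : ∀ᶠ ε : ℝ in 𝓝[>] 0, ∀ e ∈ (p k).support,
          0 ≤ ∑ i : Fin (d + 1), ε ^ (i : ℕ) *
            ((((∑ j, (e j : ℤ) • E j) i - (∑ j, (a j : ℤ) • E j) i : ℤ)) : ℝ) :=
        (Finset.eventually_all _).2 hZe
      filter_upwards [hall] with ε hε
      refine ⟨a, ha, b, hb, hab, ?_, ?_⟩
      · rw [hpr, hpr, hZab]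
      · intro e he
        rw [hpr, hpr]
        have h1 := hε e he
        have h2 : ∑ i : Fin (d + 1), ε ^ (i : ℕ) *
            ((((∑ j, (e j : ℤ) • E j) i - (∑ j, (a j : ℤ) • E j) i : ℤ)) : ℝ) =
            ∑ i : Fin (d + 1), ε ^ (i : ℕ) * (((∑ j, (e j : ℤ) • E j) i : ℤ) : ℝ) -
            ∑ i : Fin (d + 1), ε ^ (i : ℕ) * (((∑ j, (a j : ℤ) • E j) i : ℤ) : ℝ) := by
          rw [← Finset.sum_sub_distrib]
          refine Finset.sum_congr rfl fun i _ => ?_
          rw [Int.cast_sub, mul_sub]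
        rw [h2] at h1
        have hDR : (0 : ℝ) < D := by exact_mod_cast hD
        exact div_le_div_of_nonneg_right (by linarith) hDR.le
    have hk' : ∀ᶠ ε : ℝ in 𝓝[>] 0, ∀ k,
        Twice (p k).support (fun j => ∑ i : Fin (d + 1), ε ^ (i : ℕ) * (w i j : ℝ)) :=
      eventually_all.2 hk
    obtain ⟨ε₀, hε₀, hsub⟩ := mem_nhdsGT_iff_exists_Ioo_subset.1 hk'
    exact ⟨ε₀, hε₀, fun ε h1 h2 k => hsub ⟨h1, h2⟩ k⟩

end Pool.Agent.K3h58.ET
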